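import Mathlib

/-!
A non-additive polynomial commuting with a two-dimensional group of translations.
-/

namespace Pool.Agent.Lib.MP_e06cf1_nt

open Polynomial

section dyn

variable {K : Type*} [Field K]

/-- If `f` commutes with translations by the subgroup `W`, the visits of the orbit of `0` to `W`
are the multiples of a single element. -/
lemma visits (W : AddSubgroup K) (f : K → K) (hf : ∀ z, ∀ w ∈ W, f (z + w) = f z + w)
    {m n : ℕ} (hm : 0 < m) (hmW : f^[m] 0 ∈ W) (hnW : f^[n] 0 ∈ W) :
    ∃ c : K, ∃ a b : ℕ, f^[m] 0 = a * c ∧ f^[n] 0 = b * c := by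
  classical
  have hit : ∀ (j : ℕ) (z : K), ∀ w ∈ W, f^[j] (z + w) = f^[j] z + w := by
    intro j
    induction j with
    | zero => intro z w _; rfl
    | succ j ih =>
      intro z w hw
      rw [Function.iterate_succ_apply', Function.iterate_succ_apply', ih z w hw, hf _ w hw]
  have hex : ∃ r : ℕ, 0 < r ∧ f^[r] 0 ∈ W := ⟨m, hm, hmW⟩
  set r := Nat.find hex with hr
  obtain ⟨hr0, hrW⟩ : 0 < r ∧ f^[r] 0 ∈ W := Nat.find_spec hex
  set c := f^[r] 0 with hc
  have hmul : ∀ q s : ℕ, f^[s + r * q] 0 = f^[s] 0 + q * c := by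
    intro q
    induction q with
    | zero => intro s; simp
    | succ q ih =>
      intro s
      have e : s + r * (q + 1) = (s + r * q) + r := by ring
      rw [e, Function.iterate_add_apply, ← hc]
      have := hit (s + r * q) 0 c hrW
      rw [zero_add] at this
      rw [this, ih s]
      push_cast
      ring
  have hqc : ∀ q : ℕ, (q : K) * c ∈ W := by
    intro q
    rw [← nsmul_eq_mul]
    exact W.nsmul_mem hrW q
  have key : ∀ j : ℕ, f^[j] 0 ∈ W → f^[j] 0 = ((j / r : ℕ) : K) * c := by
    intro j hj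
    have e := hmul (j / r) (j % r)
    rw [Nat.mod_add_div] at e
    have hs : f^[j % r] 0 ∈ W := by
      have : f^[j % r] 0 = f^[j] 0 - ((j / r : ℕ) : K) * c := by rw [e]; ring
      rw [this]
      exact W.sub_mem hj (hqc _)
    have h0 : j % r = 0 := by
      by_contra hne
      exact Nat.find_min hex (Nat.mod_lt j hr0) ⟨Nat.pos_of_ne_zero hne, hs⟩
    rw [e, h0]
    simp
  exact ⟨c, m / r, n / r, key m hmW, key n hnW⟩

end dyn

variable (p : ℕ) [Fact p.Prime]

/-- The Artin-Schreier map as an additive homomorphism. -/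
noncomputable def wp (K : Type*) [Field K] [CharP K p] : K →+ K where
  toFun z := z ^ p - z
  map_zero' := by simp [(Fact.out : p.Prime).ne_zero]
  map_add' x y := by rw [add_pow_char]; ring

lemma wp_apply (K : Type*) [Field K] [CharP K p] (z : K) : wp p K z = z ^ p - z := rfl

lemma wp_surj (K : Type*) [Field K] [CharP K p] [IsAlgClosed K] (a : K) :
    ∃ z : K, wp p K z = a := by
  have hp : 1 < p := (Fact.out : p.Prime).one_lt
  have hdeg : (X ^ p - (X + C a) : K[X]).degree = p := by
    rw [degree_sub_eq_left_of_degree_lt]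
    · simp
    · rw [degree_X_add_C, degree_X_pow]
      exact_mod_cast hp
  obtain ⟨z, hz⟩ := IsAlgClosed.exists_root (X ^ p - (X + C a) : K[X]) (by
    rw [hdeg]
    exact_mod_cast (by omega : p ≠ 0))
  refine ⟨z, ?_⟩
  simp only [IsRoot.def, eval_sub, eval_pow, eval_X, eval_add, eval_C] at hz
  rw [wp_apply]
  linear_combination hz

lemma plus_surj (K : Type*) [Field K] [IsAlgClosed K] :
    ∃ z : K, z ^ p + z = 1 := by
  have hp : 1 < p := (Fact.out : p.Prime).one_lt
  have hdeg : (X ^ p + (X + C (-1)) : K[X]).degree = p := by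
    rw [degree_add_eq_left_of_degree_lt]
    · simp
    · rw [degree_X_add_C, degree_X_pow]
      exact_mod_cast hp
  obtain ⟨z, hz⟩ := IsAlgClosed.exists_root (X ^ p + (X + C (-1)) : K[X]) (by
    rw [hdeg]
    exact_mod_cast (by omega : p ≠ 0))
  refine ⟨z, ?_⟩
  simp only [IsRoot.def, eval_pow, eval_X, eval_add, eval_C] at hz
  linear_combination hz

/-- The counterexample polynomial. -/
noncomputable def gp (K : Type*) [Field K] : K[X] :=
  X + ((X ^ p - X) ^ p - (X ^ p - X)) ^ (p + 1)

lemma gp_eval (K : Type*) [Field K] [CharP K p] (z : K) :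
    (gp p K).eval z = z + (wp p K (wp p K z)) ^ (p + 1) := by
  simp [gp, wp_apply]

lemma not_additive_fun (K : Type*) [Field K] [CharP K p] [IsAlgClosed K] (c : K)
    (h : ∀ x y : K, (gp p K).eval (x + y) + c = ((gp p K).eval x + c) + ((gp p K).eval y + c)) :
    False := by
  have h0 := h 0 0
  simp only [gp_eval, add_zero, map_zero, zero_add, ne_eq, Nat.add_eq_zero_iff, one_ne_zero,
    and_false, not_false_eq_true, zero_pow] at h0
  have hc : c = 0 := by linear_combination -h0
  subst hc
  obtain ⟨w, hw⟩ := plus_surj p K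
  obtain ⟨x1, hx1⟩ := wp_surj p K 1
  obtain ⟨x, hx⟩ := wp_surj p K x1
  obtain ⟨y1, hy1⟩ := wp_surj p K w
  obtain ⟨y, hy⟩ := wp_surj p K y1
  have h1 := h x y
  simp only [gp_eval, map_add, hx, hx1, hy, hy1, add_zero] at h1
  rw [pow_succ, add_pow_char, pow_succ w] at h1
  simp only [one_pow] at h1
  have : (1 : K) = 0 := by linear_combination h1 - hw
  exact one_ne_zero this

lemma no_collision (K : Type*) [Field K] [CharP K p] (ω : K) (hω : wp p K ω = 1) (l : K)
    {m n : ℕ} (hm : 0 < m)
    (h1 : (fun z => (gp p K).eval z + l)^[m] 1 = 0)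
    (h2 : (fun z => (gp p K).eval z + l)^[n] ω = 0) : False := by
  set f : K → K := fun z => (gp p K).eval z + l with hf
  let W : AddSubgroup K := ((wp p K).comp (wp p K)).ker
  have hW : ∀ w, w ∈ W ↔ wp p K (wp p K w) = 0 := fun w => Iff.rfl
  have hcomm : ∀ z, ∀ w ∈ W, f (z + w) = f z + w := by
    intro z w hw
    simp only [hf, gp_eval, map_add, (hW w).1 hw, add_zero]
    ring
  have hit : ∀ (j : ℕ) (z : K), ∀ w ∈ W, f^[j] (z + w) = f^[j] z + w := by
    intro j
    induction j with
    | zero => intro z w _; rfl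
    | succ j ih =>
      intro z w hw
      rw [Function.iterate_succ_apply', Function.iterate_succ_apply', ih z w hw, hcomm _ w hw]
  have hone : wp p K 1 = 0 := by simp [wp_apply]
  have h1W : (1 : K) ∈ W := by rw [hW, hone, map_zero]
  have hωW : ω ∈ W := by rw [hW, hω, hone]
  have e1 : f^[m] 0 = -1 := by
    have := hit m 0 1 h1W
    rw [zero_add, h1] at this
    linear_combination -this
  have e2 : f^[n] 0 = -ω := by
    have := hit n 0 ω hωW
    rw [zero_add, h2] at this
    linear_combination -this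
  obtain ⟨c, a, b, ha, hb⟩ := visits W f hcomm hm (n := n) (by rw [e1]; exact W.neg_mem h1W)
    (by rw [e2]; exact W.neg_mem hωW)
  rw [e1] at ha
  rw [e2] at hb
  have ha0 : (a : K) ≠ 0 := by
    intro h
    rw [h, zero_mul] at ha
    exact one_ne_zero (neg_eq_zero.1 ha)
  have hwa : wp p K (-1) = (a : K) * wp p K c := by
    rw [ha, ← nsmul_eq_mul, map_nsmul, nsmul_eq_mul]
  have hwb : wp p K (-ω) = (b : K) * wp p K c := by
    rw [hb, ← nsmul_eq_mul, map_nsmul, nsmul_eq_mul]
  rw [map_neg, hone, neg_zero] at hwa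
  have hc : wp p K c = 0 := (mul_eq_zero.1 hwa.symm).resolve_left ha0
  rw [map_neg, hω, hc, mul_zero] at hwb
  exact one_ne_zero (neg_eq_zero.1 hwb)

end Pool.Agent.Lib.MP_e06cf1_nt
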